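import Mathlib
import Pool.Agent.T3h90.TW.Main

/-!
# Almost all twists of a cuspidal representation of `GL(m)` satisfy the Lindelöf bound in `Re s > 1 - 2/m`

Let `K` be a number field, `n ≥ 1`, `1/2 < σ ≤ 1`, `A(σ) = min(4 (1 - σ)/(3 - 2σ), 2 (1 - σ)/(2σ - 1))` (the first one is smaller
for `σ < 5/6`). The theorem is about **every** family of pairwise different unitary cuspidal automorphic representations `π_f` of
`GL_n` over `K` (any levels, any archimedean types), and `L(s) = L(s, π_f × π'~)`, where `π'` is a fixed unitary cuspidal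
representation of `GL_{n'}`, `n'` **large** compared with `n`. The main case is `n = 1`: all twists of `π'` by Hecke characters.

1. Let `C` bound the analytic conductors of `L(s, π_f × π'~)` at `i Im s_f`, `Q` those of the pairs `L(s, π_f × π_g~)` at
   `i (Im s_f - Im s_g)`, `f = g` included, `Q'` that of `L(s, π' × π'~)`, and let `G = C Q Q'` be large in terms of `K`, `n`,
   `n'`, `σ`, `ε`; let `Q^2 ≤ C` (`C` is an upper bound and may be enlarged). If for every `f ∈ T` either `Re s_f ≥ σ` and **not**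
   `G^{-ε} ≤ |L(s_f)| ≤ G^ε` (for instance `L(s_f) = 0`), or `1/2 ≤ Re s_f ≤ σ` and `|L(s_f)| > G^ε C^{(σ - Re s_f)/2}`, then `T`
   is finite and

   `|T| ≤ G^ε max(C^{1 - σ}, Q^{A(σ)})`.
2. Let `m ≥ 4n`, let the analytic conductor of `L(s, π_f × π'~)` be at most `B C(π_f)^m` and those of the pairs at most
   `B (C(π_f) C(π_g))^n` (known for `m = max(n', 4n)`, with `B` depending on `K`, `n`, `π'`, from the bound of Bushnell and
   Henniart). For large `X` there is an exceptional set with at most `X^{max(m (1 - σ), 2n A(σ)) + ε}` elements such that all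
   other `π_f` with `C(π_f) ≤ X` satisfy, for all `s` with `|Im s| ≤ X^c`, `c > 0`,

   * `X^{-ε} ≤ |L(s, π_f × π'~)| ≤ X^ε` if `Re s ≥ σ`,
   * `|L(s, π_f × π'~)| ≤ X^{m (σ - Re s)/2 + ε}` if `1/2 ≤ Re s ≤ σ`.
3. The exponent in 2. is smaller than `n + 1` if `1 - σ < (n + 1)/max(m, 6n - 2)`.

There are about `X^{n + 1}` unitary cuspidal `π` on `GL_n` with `C(π) ≤ X` (Brumley, Milićević). So **for every unitary cuspidal
`π'` on `GL_m` over a number field, `m ≥ 4`, and for 100 per cent of all Hecke characters `χ` (ordered by conductor) the Lindelöf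
bound `|L(s, π' × χ)| ≤ C(χ)^ε` and the lower bound `|L(s, π' × χ)| ≥ C(χ)^{-ε}` hold in the half plane `Re s ≥ 1 - 2/m + ε`,
`|Im s| ≤ C(χ)^c`**, with at most `X^{m (1 - σ) + ε}` exceptions for `Re s ≥ σ` if `m (3 - 2σ) ≥ 8` (about `X^2` characters), in
particular if `m ≥ 8`; for `m ≤ 4` they hold in `Re s ≥ 1/2 + ε`. For `GL_n`, `n ≥ 2`, the half plane is
`Re s ≥ 1 - (n + 1)/max(m, 6n - 2) + ε`. (The twists `π' × χ` are cuspidal on `GL_m`, and `re_gt` below is known for them.)

For `n = 1` the limit `1 - 2/m` is where the large sieve ends: an approximate functional equation has the length `X^{m/2}`, there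
are `X^2` characters, and `(X^{m/2})^{2 - 2σ} = X^{m (1 - σ)}`; the density theorem reaches what the mean square gives for upper
bounds. Rohrlich (1989), Barthel and Ramakrishnan (1994) and Luo (2005, `K = ℚ`, `Re s ∉ [2/m, 1 - 2/m]`) proved that for **one
given** `s` there are infinitely many `χ` with `L(s, π' × χ) ≠ 0`; here it is 100 per cent of all `χ`, all `s` in the half plane
at the same time, with bounds in both directions, and a power saving in the exceptional set. The general density theorem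
`LindelofForAlmostAll` handed in earlier for this problem applies to these families, too, with the bound
`Q^{2 (1 - σ)/max(1, 4σ - 2)} C^{(1 - σ)/σ}`, which is larger for all `σ < 1` if `C ≥ Q^2`: it says something about 100 per cent of
all characters for `Re s > 0.78…, 0.84…` if `m = 4, 8` (here `1/2`, `3/4`), and in general for `Re s > 1 - 2/m + 8/m² + O(m^{-3})`.
The theorem `LindelofHalfPlaneGLn`, also handed in for this problem, treats `C ≤ Q^{2/j}`, i.e. essentially `n' ≤ 4n`, with the
exponents `2 (1 - σ)(j + 1)/(j + 2 - 2σ)` of `Q`, so it overlaps with this one only for `n' = 4n`. Zero density theorems for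
general families (Kowalski, Michel; Brumley, Thorner, Zaman; Humphries, Thorner) have larger exponents, their subject is the
neighbourhood of `Re s = 1`. For `n' = 1`, `n = 1` the results of this kind are classical (Montgomery, Huxley, Jutila).
Nothing is assumed on the size of the family or towards the Ramanujan conjecture.

The structure `GLFamily` lists what is used on the pairs `π_f × π_g~`, `Twists` what is used on `π_f × π'~`; all of it is known
for unitary cuspidal representations with central characters trivial on the positive reals (Jacquet, Piatetski-Shapiro,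
Shalika; Moeglin, Waldspurger), if `n = 1` or `n' = 1` (if both are larger than `1`, the field `re_gt` of `Twists`,
`Re μ_j > -1/2`, is an assumption on the archimedean components). `S f` is the set of the places where `π_f` is ramified; the
product of the norms of its elements is at most the conductor of `π_f` (in 1. it is enough that it is at most `C Q Q'`). The
numbers `u(v, k, j)` are the normalised coefficients of `log L(s, π × π~)`, a vector for every `π` (of any degree) such that the
coefficients of `log L(s, π × π'~)` are the scalar products.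

The proof. Let `L(ρ_f) = 0`, `Re ρ_f ≥ σ`. `L(s, π_f × π'~)` times a truncated inverse of length `G^ε` has the coefficients `1` at
the ideal `1` and `0` at the other ideals up to this length. The smoothed sum of length `C^{1/2}` is shifted to the critical
line: either (I) a short block of the coefficients, with norms about `e^r`, `ε log G ≤ r ≤ (1/2 + ε) log C`, has a value
`≥ (log G)^{-c}` at `ρ_f`, or (II) `|L| ≥ C^{(σ - 1/2)/2} G^{-ε}` at a point `1/2 + iγ`, `|γ - Im ρ_f| ≤ G^ε`. By the mean square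
on the critical line there are at most `C^{1/2} C^{-(σ - 1/2)} G^ε = C^{1 - σ} G^ε` such `f` in (II). In (I) one takes the `j`-th
power of the block, a functional of length `z = e^{jr}` on the Fock space of `u`. Multipliers `e_v` of absolute value `1` on the
Satake parameters move functionals shorter than `Q` to the length `Q`, where the Gram matrix of the vectors `exp(u_f)` is
essentially diagonal (shift of the `L`-functions of the pairs to the left): at most `G^ε max(z, Q) z^{1 - 2σ}` such `f`; for the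
coefficients of the product of `L` and its truncated inverse this is proved here. If `z ≥ Q^{1/(4σ - 2)}`, the inequality of
Halász and Montgomery gives `G^ε z^{2 - 2σ}`. For `e^r ≥ Q` one takes `j = 1`; for `e^r < Q` a suitable `j` gives `Q^{A(σ)}`. The
members without zeros in `Re s ≥ σ - η` near the point: Borel, Carathéodory and Hadamard's three circles for `log L`. The strip
`1/2 ≤ Re s ≤ σ`: the three lines theorem, with the mean square on the critical line.
-/

set_option autoImplicit false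

namespace Pool.Agent.Results.MP_52e316_nt.AlmostAllTwistsGLm

open Complex NumberField IsDedekindDomain
open Pool.Agent.N846.DU (GLFamily VX Nv)
open Pool.Agent.N846.LM (Twists)

/-- **A density theorem for `π_f × π'~` with large conductors**: 100 per cent of the twists of a cuspidal representation of
`GL(m)` by Hecke characters satisfy the Lindelöf bound and have no zeros in `Re s > 1 - 2/m`. -/
theorem result (K : Type) [Field K] [NumberField K] (n N n' N' N'' : ℕ) (hn : 1 ≤ n) {ε σ : ℝ} (hε : 0 < ε)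
    (hσ : 1 / 2 < σ) (hσ1 : σ ≤ 1) :
    (∃ A : ℝ, 1 ≤ A ∧
      ∀ (ι : Type) (S : ι → Finset (HeightOneSpectrum (𝓞 K)))
        (α : ι → HeightOneSpectrum (𝓞 K) → Fin n → ℂ) (u : ι → VX K → ℂ) (q : ι → ι → ℝ) (κ : ι → ι → Fin N → ℂ)
        (S' : Finset (HeightOneSpectrum (𝓞 K))) (α' : HeightOneSpectrum (𝓞 K) → Fin n' → ℂ) (w : VX K → ℂ) (q' : ℝ)
        (κ' : Fin N'' → ℂ) (qs : ι → ℝ) (μ : ι → Fin N' → ℂ) (L : ι → ℂ → ℂ),
        GLFamily n N S α u q κ → Twists n' N' N'' u S' α' w q' κ' qs μ L →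
        ∀ (T : Set ι) (s : ι → ℂ) (C Q Q' : ℝ), 1 ≤ C → 1 ≤ Q → Q ^ 2 ≤ C →
          q' * ∏ j, (1 + ‖κ' j‖) ≤ Q' → A ≤ C * Q * Q' → (∀ f ∈ T, ∏ v ∈ S f, Nv v ≤ C * Q * Q') →
          (∀ f ∈ T, qs f * ∏ j, (1 + ‖μ f j + (s f).im * I‖) ≤ C) →
          (∀ f ∈ T, ∀ g ∈ T, q f g * ∏ j, (1 + ‖κ f g j + ((s f).im - (s g).im) * I‖) ≤ Q) →
          (∀ f ∈ T,
            (σ ≤ (s f).re ∧ ¬((C * Q * Q') ^ (-ε) ≤ ‖L f (s f)‖ ∧ ‖L f (s f)‖ ≤ (C * Q * Q') ^ ε)) ∨
            (1 / 2 ≤ (s f).re ∧ (s f).re ≤ σ ∧ (C * Q * Q') ^ ε * C ^ ((σ - (s f).re) / 2) < ‖L f (s f)‖)) →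
          T.Finite ∧ (T.ncard : ℝ) ≤ (C * Q * Q') ^ ε *
            max (C ^ (1 - σ)) (Q ^ min (4 * (1 - σ) / (3 - 2 * σ)) (2 * (1 - σ) / (2 * σ - 1)))) ∧
    (∀ m : ℕ, 4 * n ≤ m → ∀ B Q' : ℝ, 1 ≤ B → 1 ≤ Q' → ∃ A c : ℝ, 1 ≤ A ∧ 0 < c ∧
      ∀ (ι : Type) (S : ι → Finset (HeightOneSpectrum (𝓞 K)))
        (α : ι → HeightOneSpectrum (𝓞 K) → Fin n → ℂ) (u : ι → VX K → ℂ) (q : ι → ι → ℝ) (κ : ι → ι → Fin N → ℂ)
        (S' : Finset (HeightOneSpectrum (𝓞 K))) (α' : HeightOneSpectrum (𝓞 K) → Fin n' → ℂ) (w : VX K → ℂ) (q' : ℝ)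
        (κ' : Fin N'' → ℂ) (qs : ι → ℝ) (μ : ι → Fin N' → ℂ) (L : ι → ℂ → ℂ) (C : ι → ℝ),
        GLFamily n N S α u q κ → Twists n' N' N'' u S' α' w q' κ' qs μ L → q' * ∏ j, (1 + ‖κ' j‖) ≤ Q' →
        (∀ f, 1 ≤ C f) → (∀ f, qs f * ∏ j, (1 + ‖μ f j‖) ≤ B * C f ^ m) → (∀ f, ∏ v ∈ S f, Nv v ≤ C f) →
        (∀ f g, q f g * ∏ j, (1 + ‖κ f g j‖) ≤ B * (C f * C g) ^ n) →
        ∀ X : ℝ, A ≤ X → ∃ E : Set ι, E.Finite ∧
          (E.ncard : ℝ) ≤ X ^ (max (m * (1 - σ))
            (2 * n * min (4 * (1 - σ) / (3 - 2 * σ)) (2 * (1 - σ) / (2 * σ - 1))) + ε) ∧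
          ∀ f, C f ≤ X → f ∉ E → ∀ s : ℂ, |s.im| ≤ X ^ c →
            (σ ≤ s.re → X ^ (-ε) ≤ ‖L f s‖ ∧ ‖L f s‖ ≤ X ^ ε) ∧
            (1 / 2 ≤ s.re → s.re ≤ σ → ‖L f s‖ ≤ X ^ (m * (σ - s.re) / 2 + ε))) ∧
    (∀ m : ℕ, (m : ℝ) * (1 - σ) < n + 1 → (6 * (n : ℝ) - 2) * (1 - σ) < n + 1 →
      max (m * (1 - σ)) (2 * n * min (4 * (1 - σ) / (3 - 2 * σ)) (2 * (1 - σ) / (2 * σ - 1))) < n + 1) :=
  Pool.Agent.T3h90.TW.main K n N n' N' N'' hn hε hσ hσ1

end Pool.Agent.Results.MP_52e316_nt.AlmostAllTwistsGLm
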