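import Pool.Agent.T2h79.LG.Main5

/-!
# The Lindelöf bound for almost all cusp forms of `GL_n` of conductor dividing `N`, `n ≥ 3`: a law of large values

Let `n ≥ 3`. Consider the cusp forms for `GL_n` over `ℚ` of level `K_1(N)`, i.e. the functions on
`SL_n(ℤ) \ (SL_n(ℝ) × GL_n(ℤ/N) ⧸ H1)`, `H1` the matrices with the first column `(1, 0, ..., 0)`, of bounded type at
the infinite place. Every cuspidal automorphic representation of conductor `N` contributes exactly one newform, so
this is the universal family, for all nebentypus characters; it has about `N ^ n` members. We show that at most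
`C N ^ (n + ε - 2 θ)` members of an arbitrary orthonormal family have `|L(1/2 + i t)| > N ^ θ (1 + |t|) ^ K` for some
real `t`, for all `0 ≤ θ ≤ θ₀`; in particular the Lindelöf bound holds for all but a power saving fraction. The
exponent `2 θ` is the one which the Lindelöf bound for the second moment would give. The same holds for the twists by
any function `ξ`, `|ξ| ≤ 1`, as long as the conductor of the twist is at most `N ^ (2 - κ)`, for instance all
Dirichlet characters of conductor at most `N ^ ((1 - κ) / n)`; for a set `Ξ` of twists the number of the exceptions is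
multiplied by `#Ξ`. Every `N` is allowed, and every type at infinity, with no use of Whittaker models or of the
Kuznetsov formula.

The main steps:
* the large sieve inequality `∑_f |∑_m b(m) λ_f(m)|² ≪ N ^ (n + ε) ∑ |b(m)|²` for the Hecke operators `T(m)`,
  `m ≤ N ^ (1 - ε)` prime to `N`, over the part of the forms in a large compact set: by the pretrace inequality it
  is reduced to the number of the pairs `(W, v)`, `W` an integral matrix with `|β⁻¹ W| ≤ r`, `v` a unimodular column
  modulo `N` with `W v = 0`, on the average over the integral matrices `β` of determinant `m` modulo `SL_n(ℤ)`;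
  this is done by reduction theory in the column space of `W` (`T_STR`), a count of the matrices `Φ` with `Φ v = 0`
  by the index of their column lattices (`T_SOL`, `T_GCV`) and an exchange sum (`T_EXQ`, `T_AV1`);
* all but a power saving fraction of the forms have a positive proportion of their mass in that compact set; this is
  from the density theorem `MP_8410ab_nt.DensityGLn` (fixed points of integral matrices);
* an approximate functional equation as an inequality (`T_AFE`).

By helper79, with helpers 2, 9, 14, 37, 44, 45, 51, 77, 82, 86, 90, 91.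
-/

set_option autoImplicit false

open MeasureTheory
open scoped Topology

namespace Pool.Agent.Results.MP_52e316_nt.LindelofConductorN

open Pool.Agent.T2h77.N Pool.Agent.T2h79.LG

theorem result (n : ℕ) (hn : 3 ≤ n) (κ : ℝ) (hκ : 0 < κ) (hκ1 : κ ≤ 1) :
    ∃ θ₀ : ℝ, 0 < θ₀ ∧ ∀ U : Set (GR n), U ∈ 𝓝 (1 : GR n) → ∀ T ε : ℝ, 0 < ε → ∃ (C : ℝ) (K : ℕ), 0 < C ∧
      ∀ (N : ℕ) [NeZero N] (F : Set (GR n)), IsFD F →
      ∀ (k : ℕ) (f : Fin k → GR n → XX (H1 n N) → ℂ) (l : Fin k → ℕ → ℂ),
        (∀ i, IsForm (H1 n N) (f i) ∧ IsL2 F (f i) ∧ IsCusp (f i) ∧ IsSlow U F (f i)) →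
        (∀ i j, ip F (f i) (f j) = if i = j then 1 else 0) →
        (∀ i, IsEig (l i) (f i)) →
        ∀ θ : ℝ, 0 ≤ θ → θ ≤ θ₀ → ∀ Ξ : Finset (ℕ → ℂ), (∀ ξ ∈ Ξ, ∀ m, ‖ξ m‖ ≤ 1) →
        (∀ i, ∃ ξ ∈ Ξ, ∃ D : LData n, D.Ok ∧ D.q ≤ T * (N : ℝ) ^ (2 - κ) ∧ (∀ j, ‖D.μ j‖ ≤ T) ∧
          (∀ m : ℕ, 0 < m → m.Coprime N → D.lam m = ξ m * l i m) ∧
          ∃ t : ℝ, (N : ℝ) ^ θ * (1 + |t|) ^ K < ‖D.L (1 / 2 + t * Complex.I)‖) →
        (k : ℝ) ≤ C * Ξ.card * (N : ℝ) ^ ((n : ℝ) + ε - 2 * θ) := by
  obtain ⟨θ₀, hθ₀, h0⟩ := large1 n hn κ hκ hκ1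
  refine ⟨θ₀, hθ₀, fun U hU T ε hε => ?_⟩
  obtain ⟨C, K, hC, h⟩ := h0 U hU T ε hε
  refine ⟨C, K, hC, fun N _ F hF k f l hf hon heig θ hθ hθθ Ξ hξ hbad => ?_⟩
  have hN : (0 : ℝ) < N := by
    have := NeZero.pos N
    exact_mod_cast this
  have h1 := h N F hF k f l hf hon heig θ hθ hθθ Ξ hξ fun i => by
    obtain ⟨ξ, h1, D, h2, h3, h4, h5, h6⟩ := hbad i
    refine ⟨ξ, h1, D, h2, ?_, h4, h5, h6⟩
    rw [Nat.cast_one, mul_one]
    exact h3
  refine h1.trans (le_of_eq ?_)
  show C * Ξ.card * (N : ℝ) ^ n * (N : ℝ) ^ (ε - 2 * θ) = C * Ξ.card * (N : ℝ) ^ ((n : ℝ) + ε - 2 * θ)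
  rw [mul_assoc, ← Real.rpow_natCast, ← Real.rpow_add hN, add_sub_assoc]

end Pool.Agent.Results.MP_52e316_nt.LindelofConductorN
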