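import Pool.Agent.T2h79.LG.Main5

/-!
# The Lindelöf bound for almost all cusp forms of `GL_n` of principal level `N`, `n ≥ 3`: a law of large values

Let `n ≥ 3`. Consider the cusp forms for `GL_n` over `ℚ` of principal level `N`, i.e. the functions on
`SL_n(ℤ) \ (SL_n(ℝ) × GL_n(ℤ/N))`, of bounded type at the infinite place. We show that at most
`C |GL_n(ℤ/N)| N ^ (ε - 2 θ)` members of an arbitrary orthonormal family have `|L(1/2 + i t)| > N ^ θ (1 + |t|) ^ K` for
some real `t`, for all `0 ≤ θ ≤ θ₀`; in particular the Lindelöf bound holds for all but a power saving fraction. The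
same holds for the twists by any function `ξ`, `|ξ| ≤ 1`, as long as the conductor of the twist is at most
`N ^ (2 n - κ)` (the conductors of the forms divide `N ^ n`), for instance all Dirichlet characters of conductor at
most `N ^ (1 - κ / n)`; for a set `Ξ` of twists the number of the exceptions is multiplied by `#Ξ`. Every `N` is
allowed, and every type at infinity, with no use of Whittaker models or of the Kuznetsov formula.

The main steps:
* the large sieve inequality `∑_f |∑_m b(m) λ_f(m)|² ≪ |GL_n(ℤ/N)| N ^ ε ∑ |b(m)|²` for the Hecke operators `T(m)`,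
  `m ≤ N ^ (n - ε)` prime to `N`, over the part of the forms in a large compact set: by the pretrace inequality it
  is reduced to `∑_β #{W ∈ M_n(ℤ) : |β⁻¹ W| ≤ r} ≪ m ^ (n - 1 + ε)` for `r ≤ m ^ (-1/n)`, the sum over the integral
  matrices of determinant `m` modulo `SL_n(ℤ)`; this is done by reduction theory and a count of the rational
  matrices `q` for which `β q` is integral (`T_SHO`, `T_NQU`, `T_RNU`, `T_AVG`);
* all but a power saving fraction of the forms have a positive proportion of their mass in that compact set; this is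
  from the density theorem `MP_8410ab_nt.DensityGLn` (fixed points of integral matrices on `GL_n(ℤ/N)`);
* an approximate functional equation as an inequality (`T_AFE`).

By helper79, with helpers 2, 9, 14, 37, 44, 45, 51, 77, 82, 86, 90, 91.
-/

set_option autoImplicit false

open MeasureTheory
open scoped Topology

namespace Pool.Agent.Results.MP_52e316_nt.LindelofPrincipalLevel

open Pool.Agent.T2h77.N Pool.Agent.T2h79.LG

theorem result (n : ℕ) (hn : 3 ≤ n) (κ : ℝ) (hκ : 0 < κ) (hκ1 : κ ≤ 1) :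
    ∃ θ₀ : ℝ, 0 < θ₀ ∧ ∀ U : Set (GR n), U ∈ 𝓝 (1 : GR n) → ∀ T ε : ℝ, 0 < ε → ∃ (C : ℝ) (K : ℕ), 0 < C ∧
      ∀ (N : ℕ) [NeZero N] (F : Set (GR n)), IsFD F →
      ∀ (k : ℕ) (f : Fin k → GR n → XX (⊥ : Subgroup (GN n N)) → ℂ) (l : Fin k → ℕ → ℂ),
        (∀ i, IsForm ⊥ (f i) ∧ IsL2 F (f i) ∧ IsCusp (f i) ∧ IsSlow U F (f i)) →
        (∀ i j, ip F (f i) (f j) = if i = j then 1 else 0) →
        (∀ i, IsEig (l i) (f i)) →
        ∀ θ : ℝ, 0 ≤ θ → θ ≤ θ₀ → ∀ Ξ : Finset (ℕ → ℂ), (∀ ξ ∈ Ξ, ∀ m, ‖ξ m‖ ≤ 1) →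
        (∀ i, ∃ ξ ∈ Ξ, ∃ D : LData n, D.Ok ∧ D.q ≤ T * (N : ℝ) ^ (2 * (n : ℝ) - κ) ∧ (∀ j, ‖D.μ j‖ ≤ T) ∧
          (∀ m : ℕ, 0 < m → m.Coprime N → D.lam m = ξ m * l i m) ∧
          ∃ t : ℝ, (N : ℝ) ^ θ * (1 + |t|) ^ K < ‖D.L (1 / 2 + t * Complex.I)‖) →
        (k : ℝ) ≤ C * Ξ.card * Nat.card (GN n N) * (N : ℝ) ^ (ε - 2 * θ) :=
  large0 n hn κ hκ hκ1

end Pool.Agent.Results.MP_52e316_nt.LindelofPrincipalLevel
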