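import Pool.Agent.T2h79.LG.Main5

/-!
# A zero density theorem up to the critical line for the cusp forms of `GL_n` of conductor dividing `N`, `n ≥ 3`

Let `n ≥ 3`. Consider the cusp forms for `GL_n` over `ℚ` of level `K_1(N)`, i.e. the functions on
`SL_n(ℤ) \ (SL_n(ℝ) × GL_n(ℤ/N) ⧸ H1)`, `H1` the matrices with the first column `(1, 0, ..., 0)`, of bounded type at
the infinite place. Every cuspidal automorphic representation of conductor `N` contributes exactly one newform, so
this is the universal family, for all nebentypus characters; it has about `N ^ n` members. We show that there is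
`c > 0` such that for every `0 < ε ≤ 1/2` at most `C N ^ (n - c ε)` members of an arbitrary orthonormal family have an
L-function with a zero in `Re s ≥ 1/2 + ε`, `|Im s| ≤ N ^ δ`. The same holds for the twists by any function `ξ`,
`|ξ| ≤ 1`, as long as the conductor of the twist is at most `N ^ (2 - κ)`; for a set `Ξ` of twists the number of the
exceptions is multiplied by `#Ξ`. This is what the generalized Riemann hypothesis, and up to `o(log N)` zeros the
Lindelöf hypothesis, ask for; it is not implied by the Lindelöf bound for these forms.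

The main new point is a large sieve inequality for the coefficients of `1 / L` and of `L` times a mollifier: these
are eigenvalues of Hecke operators whose coefficients are small in the mean square over the integral matrices of
determinant `m` modulo `SL_n(ℤ)`; this is shown inductively, by the relation between the elementary and the complete
symmetric polynomials (`T_RPO`) and by the bound `d ^ ((n - 1) / 2 + ε)` for the norm of `T(d)` on the square summable
functions of lattices (`T_SCH`: Schur's test with the weights `wv`, `T_WVA`, `T_WVB`; `T_RPM`). The zeros are detected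
as usual (`T_DET`).

By helper79, with helpers 2, 6, 7, 9, 14, 26, 37, 42, 44, 45, 47, 48, 51, 62, 77, 82, 84, 86, 90, 91.
-/

set_option autoImplicit false

open MeasureTheory
open scoped Topology

namespace Pool.Agent.Results.MP_52e316_nt.ZeroFreeConductorN

open Pool.Agent.T2h77.N Pool.Agent.T2h79.LG

theorem result (n : ℕ) (hn : 3 ≤ n) (U : Set (GR n)) (hU : U ∈ 𝓝 (1 : GR n)) (κ : ℝ) (hκ : 0 < κ) (hκ1 : κ ≤ 1) :
    ∃ c : ℝ, 0 < c ∧ ∀ T ε : ℝ, 0 < ε → ε ≤ 1 / 2 → ∃ δ C : ℝ, 0 < δ ∧ 0 < C ∧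
      ∀ (N : ℕ) [NeZero N] (F : Set (GR n)), IsFD F →
      ∀ (k : ℕ) (f : Fin k → GR n → XX (H1 n N) → ℂ) (l : Fin k → ℕ → ℂ),
        (∀ i, IsForm (H1 n N) (f i) ∧ IsL2 F (f i) ∧ IsCusp (f i) ∧ IsSlow U F (f i)) →
        (∀ i j, ip F (f i) (f j) = if i = j then 1 else 0) →
        (∀ i, IsEig (l i) (f i)) →
        ∀ Ξ : Finset (ℕ → ℂ), (∀ ξ ∈ Ξ, ∀ m, ‖ξ m‖ ≤ 1) →
        (∀ i, ∃ ξ ∈ Ξ, ∃ D : LData n, D.Ok ∧ D.q ≤ T * (N : ℝ) ^ (2 - κ) ∧ (∀ j, ‖D.μ j‖ ≤ T) ∧
          (∀ m : ℕ, 0 < m → m.Coprime N → D.lam m = ξ m * l i m) ∧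
          ∃ s : ℂ, D.L s = 0 ∧ 1 / 2 + ε ≤ s.re ∧ s.re ≤ 3 / 2 ∧ |s.im| ≤ (N : ℝ) ^ δ) →
        (k : ℝ) ≤ C * Ξ.card * (N : ℝ) ^ ((n : ℝ) - c * ε) := by
  obtain ⟨c, hc, h0⟩ := zero1 n hn U hU κ hκ hκ1
  refine ⟨c, hc, fun T ε hε hε2 => ?_⟩
  obtain ⟨δ, C, hδ, hC, h⟩ := h0 T ε hε hε2
  refine ⟨δ, C, hδ, hC, fun N _ F hF k f l hf hon heig Ξ hξ hbad => ?_⟩
  have hN : (0 : ℝ) < N := by
    have := NeZero.pos N
    exact_mod_cast this
  have h1 := h N F hF k f l hf hon heig Ξ hξ fun i => by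
    obtain ⟨ξ, h1, D, h2, h3, h4, h5, h6⟩ := hbad i
    refine ⟨ξ, h1, D, h2, ?_, h4, h5, h6⟩
    rw [Nat.cast_one, mul_one]
    exact h3
  refine h1.trans (le_of_eq ?_)
  show C * Ξ.card * (N : ℝ) ^ n * (N : ℝ) ^ (-(c * ε)) = C * Ξ.card * (N : ℝ) ^ ((n : ℝ) - c * ε)
  rw [mul_assoc, ← Real.rpow_natCast, ← Real.rpow_add hN, sub_eq_add_neg]

end Pool.Agent.Results.MP_52e316_nt.ZeroFreeConductorN
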